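import Mathlib

/-!
Project PSP (helper727), task MAJ, part 4: inequalities for large `ℓ = log X`.
-/

set_option autoImplicit false

open Finset Filter

namespace Pool.Agent.Y917.PSP

theorem pow_eq_exp (x : ℝ) (hx : 0 < x) (n : ℕ) : x ^ n = Real.exp (n * Real.log x) := by
  rw [Real.exp_nat_mul, Real.exp_log hx]

theorem ev_exp_sqrt (k : ℕ) (K : ℝ) : ∀ᶠ l : ℝ in atTop, K * l ^ k ≤ Real.exp (Real.sqrt l) := by
  have h1 : Tendsto (fun s : ℝ => s ^ (2 * k) * Real.exp (-s)) atTop (nhds 0) :=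
    Real.tendsto_pow_mul_exp_neg_atTop_nhds_zero (2 * k)
  have h2 : Tendsto (fun l : ℝ => (Real.sqrt l) ^ (2 * k) * Real.exp (-Real.sqrt l)) atTop (nhds 0) :=
    h1.comp Real.tendsto_sqrt_atTop
  have h3 : ∀ᶠ l : ℝ in atTop, (Real.sqrt l) ^ (2 * k) * Real.exp (-Real.sqrt l) < 1 / (|K| + 1) :=
    h2.eventually (gt_mem_nhds (by positivity))
  filter_upwards [h3, eventually_ge_atTop 0] with l h4 h5
  rw [pow_mul, Real.sq_sqrt h5, Real.exp_neg, ← div_eq_mul_inv, div_lt_iff₀ (Real.exp_pos _),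
    div_mul_eq_mul_div, one_mul, lt_div_iff₀ (by positivity)] at h4
  have h6 : K * l ^ k ≤ |K| * l ^ k := mul_le_mul_of_nonneg_right (le_abs_self K) (by positivity)
  have h7 : 0 ≤ l ^ k := by positivity
  nlinarith

theorem ev_log_sqrt (a c : ℝ) : ∀ᶠ l : ℝ in atTop, a * Real.log l + c < Real.sqrt l := by
  have h1 := (isLittleO_log_rpow_atTop (by norm_num : (0 : ℝ) < 1 / 2)).bound
    (by positivity : (0 : ℝ) < 1 / (2 * (|a| + 1)))
  have h2 : ∀ᶠ l : ℝ in atTop, 2 * c < Real.sqrt l := Real.tendsto_sqrt_atTop.eventually_gt_atTop _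
  filter_upwards [h1, h2, eventually_ge_atTop 1] with l h1 h2 h3
  rw [Real.norm_eq_abs, Real.norm_eq_abs, ← Real.sqrt_eq_rpow, abs_of_nonneg (Real.sqrt_nonneg l),
    abs_of_nonneg (Real.log_nonneg h3), div_mul_eq_mul_div, one_mul, le_div_iff₀ (by positivity)] at h1
  have h4 : 0 ≤ Real.log l := Real.log_nonneg h3
  have h5 : a * Real.log l ≤ |a| * Real.log l := mul_le_mul_of_nonneg_right (le_abs_self a) h4
  have h6 : 0 ≤ |a| := abs_nonneg a
  nlinarith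

theorem asym (M C B1 B' R1 : ℕ) (hM : 1 ≤ M) (CS η : ℝ) (hCS : 1 ≤ CS) (hη : 0 < η) :
    ∀ᶠ l : ℝ in atTop, ∃ b : ℕ, C * (M + 1) ≤ b ∧ 8 * M ≤ b ∧ 16 * (C : ℝ) * b * Real.sqrt l < l ∧
      l ^ B' < Real.exp (Real.sqrt l) ∧
      2 * (1 / 2 : ℝ) ^ b * ((1 + l) ^ 3 * (CS * l)) ^ M ≤ η / 8 ∧
      2 * (16 * (M : ℝ) ^ 2 * Real.exp (-Real.sqrt l)) * ((1 + l) ^ 3 * (CS * l)) ^ M ≤ η / 8 ∧
      Real.exp (-(13 / 16 * l)) * (l ^ (B1 + 2)) ^ M ≤ η / 8 ∧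
      (R1 : ℝ) ≤ Real.exp (Real.sqrt l) ∧ 64 * (M : ℝ) ≤ l ∧ CS ≤ l ∧ 2 ≤ l ∧
      (2 : ℝ) ^ (128 * C * b) ≤ l ^ (128 * C * (8 * M + 2) + 1) := by
  set A : ℕ := 8 * M + 2 with hA
  filter_upwards [ev_log_sqrt (16 * C * A) (16 * C), ev_exp_sqrt B' 2,
    ev_exp_sqrt (4 * M) (2 * (16 * (M : ℝ) ^ 2) * (8 * CS) ^ M * (8 / η)),
    ev_exp_sqrt ((B1 + 2) * M) (8 / η), ev_exp_sqrt 0 R1,
    eventually_ge_atTop (64 * (M : ℝ)), eventually_ge_atTop CS, eventually_ge_atTop (2 : ℝ),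
    eventually_ge_atTop (2 * (8 * CS) ^ M * (8 / η)), eventually_ge_atTop (Real.exp (128 * C)),
    Real.tendsto_log_atTop.eventually_ge_atTop ((C * (M + 1) + 8 * M : ℕ) : ℝ)]
    with l h1 h2 h3 h4 h5 h6 h7 h8 h9 h10 h11
  have hl0 : (0 : ℝ) < l := by linarith
  have hL0 : 0 ≤ Real.log l := Real.log_nonneg (by linarith)
  have hA1 : (1 : ℝ) ≤ A := by rw [hA]; push_cast; linarith [(Nat.cast_nonneg M : (0 : ℝ) ≤ M)]
  have hAL : 0 ≤ (A : ℝ) * Real.log l := by positivity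
  set b : ℕ := ⌈(A : ℝ) * Real.log l⌉₊ with hb
  have hb1 : (A : ℝ) * Real.log l ≤ b := Nat.le_ceil _
  have hb2 : (b : ℝ) ≤ A * Real.log l + 1 := (Nat.ceil_lt_add_one hAL).le
  have hs0 : 0 < Real.sqrt l := Real.sqrt_pos.2 hl0
  have hss : Real.sqrt l * Real.sqrt l = l := Real.mul_self_sqrt hl0.le
  have hC0 : (0 : ℝ) ≤ C := Nat.cast_nonneg C
  have hbig : ((C * (M + 1) + 8 * M : ℕ) : ℝ) ≤ b := by
    refine h11.trans (le_trans ?_ hb1)
    nlinarith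
  have hbig' : C * (M + 1) + 8 * M ≤ b := by exact_mod_cast hbig
  have hlog2 : 0.6931471803 < Real.log 2 := Real.log_two_gt_d9
  have hlog2' : Real.log 2 < 0.6931471808 := Real.log_two_lt_d9
  -- the power of 2
  have h2b : l ^ (4 * M + 1) ≤ (2 : ℝ) ^ b := by
    have e1 : l ^ (4 * M + 1) = Real.exp (((4 * M + 1 : ℕ) : ℝ) * Real.log l) := pow_eq_exp l hl0 _
    have e2 : (2 : ℝ) ^ b = Real.exp (b * Real.log 2) := pow_eq_exp 2 (by norm_num) _
    rw [e1, e2]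
    apply Real.exp_le_exp.2
    have h12 : ((4 * M + 1 : ℕ) : ℝ) ≤ A * Real.log 2 := by
      rw [hA]; push_cast
      have : (0 : ℝ) ≤ M := Nat.cast_nonneg M
      nlinarith
    calc ((4 * M + 1 : ℕ) : ℝ) * Real.log l ≤ (A * Real.log 2) * Real.log l := by gcongr
      _ = (A * Real.log l) * Real.log 2 := by ring
      _ ≤ b * Real.log 2 := by gcongr
  have hQ : ((1 + l) ^ 3 * (CS * l)) ^ M ≤ (8 * CS) ^ M * l ^ (4 * M) := by
    have e1 : (1 + l) ^ 3 ≤ 8 * l ^ 3 := by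
      have : (1 + l) ^ 3 ≤ (2 * l) ^ 3 := pow_le_pow_left₀ (by linarith) (by linarith) 3
      calc (1 + l) ^ 3 ≤ (2 * l) ^ 3 := this
        _ = 8 * l ^ 3 := by ring
    have e2 : (1 + l) ^ 3 * (CS * l) ≤ 8 * CS * l ^ 4 := by
      calc (1 + l) ^ 3 * (CS * l) ≤ (8 * l ^ 3) * (CS * l) := by gcongr
        _ = 8 * CS * l ^ 4 := by ring
    calc ((1 + l) ^ 3 * (CS * l)) ^ M ≤ (8 * CS * l ^ 4) ^ M := pow_le_pow_left₀ (by positivity) e2 M
      _ = (8 * CS) ^ M * l ^ (4 * M) := by rw [mul_pow, ← pow_mul]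
  have hlM : 0 < l ^ (4 * M) := by positivity
  refine ⟨b, by omega, by omega, ?_, ?_, ?_, ?_, ?_, ?_, h6, h7, h8, ?_⟩
  · have e1 : 16 * (C : ℝ) * b ≤ 16 * C * A * Real.log l + 16 * C := by
      calc 16 * (C : ℝ) * b ≤ 16 * C * (A * Real.log l + 1) := by gcongr
        _ = _ := by ring
    calc 16 * (C : ℝ) * b * Real.sqrt l < Real.sqrt l * Real.sqrt l := by
          apply mul_lt_mul_of_pos_right _ hs0
          linarith
      _ = l := hss
  · have : 0 < l ^ B' := by positivity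
    linarith
  · have e1 : (1 / 2 : ℝ) ^ b * l ^ (4 * M + 1) ≤ 1 := by
      rw [one_div, inv_pow, inv_mul_le_iff₀ (by positivity), mul_one]
      exact h2b
    have e2 : 2 * (1 / 2 : ℝ) ^ b * ((1 + l) ^ 3 * (CS * l)) ^ M ≤
        2 * (1 / 2 : ℝ) ^ b * ((8 * CS) ^ M * l ^ (4 * M)) := by gcongr
    refine e2.trans ?_
    have e3 : 2 * (1 / 2 : ℝ) ^ b * ((8 * CS) ^ M * l ^ (4 * M)) * l ≤ 2 * (8 * CS) ^ M := by
      calc 2 * (1 / 2 : ℝ) ^ b * ((8 * CS) ^ M * l ^ (4 * M)) * l =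
          2 * (8 * CS) ^ M * ((1 / 2 : ℝ) ^ b * l ^ (4 * M + 1)) := by rw [pow_succ l (4 * M)]; ring
        _ ≤ 2 * (8 * CS) ^ M * 1 := by gcongr
        _ = _ := mul_one _
    have e4 : 2 * (8 * CS) ^ M ≤ η / 8 * l := by
      have : 2 * (8 * CS) ^ M * (8 / η) * (η / 8) ≤ l * (η / 8) := by gcongr
      have e5 : 2 * (8 * CS) ^ M * (8 / η) * (η / 8) = 2 * (8 * CS) ^ M := by field_simp
      linarith
    exact le_of_mul_le_mul_right (e3.trans e4) hl0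
  · have e1 : 2 * (16 * (M : ℝ) ^ 2 * Real.exp (-Real.sqrt l)) * ((1 + l) ^ 3 * (CS * l)) ^ M ≤
        2 * (16 * (M : ℝ) ^ 2 * Real.exp (-Real.sqrt l)) * ((8 * CS) ^ M * l ^ (4 * M)) := by gcongr
    refine e1.trans ?_
    rw [Real.exp_neg]
    have hE : 0 < Real.exp (Real.sqrt l) := Real.exp_pos _
    have e2 : 2 * (16 * (M : ℝ) ^ 2 * (Real.exp (Real.sqrt l))⁻¹) * ((8 * CS) ^ M * l ^ (4 * M)) =
        (2 * (16 * (M : ℝ) ^ 2) * (8 * CS) ^ M * (8 / η) * l ^ (4 * M)) * (η / 8) /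
          Real.exp (Real.sqrt l) := by
      field_simp
    rw [e2, div_le_iff₀ hE]
    nlinarith
  · have hE : 0 < Real.exp (Real.sqrt l) := Real.exp_pos _
    have e1 : Real.sqrt l ≤ 13 / 16 * l := by
      have e2 : 16 / 13 ≤ Real.sqrt l := by
        apply Real.le_sqrt_of_sq_le
        norm_num
        linarith
      nlinarith
    have e3 : Real.exp (-(13 / 16 * l)) ≤ Real.exp (-Real.sqrt l) := Real.exp_le_exp.2 (by linarith)
    calc Real.exp (-(13 / 16 * l)) * (l ^ (B1 + 2)) ^ M ≤ Real.exp (-Real.sqrt l) * l ^ ((B1 + 2) * M) := by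
          rw [← pow_mul]
          gcongr
      _ ≤ η / 8 := by
          rw [Real.exp_neg, inv_mul_le_iff₀ hE]
          have e4 : 8 / η * l ^ ((B1 + 2) * M) * (η / 8) ≤ Real.exp (Real.sqrt l) * (η / 8) := by gcongr
          have e5 : 8 / η * l ^ ((B1 + 2) * M) * (η / 8) = l ^ ((B1 + 2) * M) := by field_simp
          linarith
  · simpa using h5
  · have e1 : (2 : ℝ) ^ (128 * C * b) = Real.exp ((128 * C * b : ℕ) * Real.log 2) :=
      pow_eq_exp 2 (by norm_num) _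
    rw [e1]
    have e2 : ((128 * C * b : ℕ) : ℝ) * Real.log 2 ≤ 128 * C * A * Real.log l + 128 * C := by
      calc ((128 * C * b : ℕ) : ℝ) * Real.log 2 ≤ ((128 * C * b : ℕ) : ℝ) * 1 := by gcongr; linarith
        _ = 128 * C * b := by push_cast; ring
        _ ≤ 128 * C * (A * Real.log l + 1) := by gcongr
        _ = _ := by ring
    calc Real.exp ((128 * C * b : ℕ) * Real.log 2) ≤ Real.exp (128 * C * A * Real.log l + 128 * C) :=
          Real.exp_le_exp.2 e2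
      _ = l ^ (128 * C * A) * Real.exp (128 * C) := by
          rw [Real.exp_add, pow_eq_exp l hl0]
          push_cast
          rfl
      _ ≤ l ^ (128 * C * A) * l := by gcongr
      _ = _ := by rw [pow_succ]

end Pool.Agent.Y917.PSP
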