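import Mathlib

/-!
Project PSP (helper727), task MAJ, part 5: the final inequality.
-/

set_option autoImplicit false

open Finset Filter

namespace Pool.Agent.Y917.PSP

theorem final_real (m M : ℕ) (hmM : m ≤ M) (X V G Vu L S₀ z ε E T η Q P : ℝ) (hX : 0 < X) (hV : 0 < V)
    (hG : 0 < G) (hη : 0 < η) (hη1 : η ≤ 1) (hz : 0 < z) (hε : 0 ≤ ε) (hL : 0 ≤ L) (hE : 0 ≤ E) (hT : 0 ≤ T)
    (h1 : |Vu - V ^ m| ≤ η / 4 * V ^ m)
    (h2 : |S₀ - X * Vu * G ^ m| ≤ X * Vu * (16 * (m : ℝ) ^ 2 * L ^ m / z + ε * L ^ m) + T * E)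
    (hQ : L / G ≤ Q) (hQ1 : 1 ≤ Q) (hP : 1 / (V * G) ≤ P) (hP1 : 1 ≤ P)
    (h3 : 2 * (16 * (M : ℝ) ^ 2 * (1 / z)) * Q ^ M ≤ η / 8) (h4 : 2 * ε * Q ^ M ≤ η / 8)
    (h5 : T * E / X * P ^ M ≤ η / 8) : |S₀ / (V * G) ^ m / X - 1| ≤ η := by
  have hVm : 0 < V ^ m := by positivity
  have hGm : 0 < G ^ m := by positivity
  have hVG : 0 < (V * G) ^ m := by positivity
  have hVu : Vu ≤ 2 * V ^ m := by
    have := (abs_le.1 h1).2
    nlinarith
  have hVu0 : 0 ≤ Vu := by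
    have := (abs_le.1 h1).1
    nlinarith
  have e1 : S₀ / (V * G) ^ m / X - 1 = (S₀ - X * Vu * G ^ m) / ((V * G) ^ m * X) + (Vu - V ^ m) / V ^ m := by
    rw [mul_pow]
    field_simp
    ring
  have h6 : |(Vu - V ^ m) / V ^ m| ≤ η / 4 := by
    rw [abs_div, abs_of_pos hVm, div_le_iff₀ hVm]
    exact h1
  have hLG : (L / G) ^ m ≤ Q ^ M :=
    (pow_le_pow_left₀ (by positivity) hQ m).trans (pow_le_pow_right₀ hQ1 hmM)
  have hLG0 : 0 ≤ (L / G) ^ m := by positivity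
  have hPM : (1 / (V * G)) ^ m ≤ P ^ M :=
    (pow_le_pow_left₀ (by positivity) hP m).trans (pow_le_pow_right₀ hP1 hmM)
  have h7 : |(S₀ - X * Vu * G ^ m) / ((V * G) ^ m * X)| ≤ 3 * (η / 8) := by
    rw [abs_div, abs_of_pos (by positivity : 0 < (V * G) ^ m * X), div_le_iff₀ (by positivity)]
    refine h2.trans ?_
    have hm2 : (m : ℝ) ^ 2 ≤ (M : ℝ) ^ 2 := by gcongr
    have hV2 : Vu * (L ^ m) ≤ 2 * (V * G) ^ m * Q ^ M := by
      calc Vu * (L ^ m) ≤ (2 * V ^ m) * L ^ m := by gcongr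
        _ = 2 * (V * G) ^ m * (L / G) ^ m := by
          rw [mul_pow, div_pow]; field_simp
        _ ≤ 2 * (V * G) ^ m * Q ^ M := by gcongr
    have a1 : X * Vu * (16 * (m : ℝ) ^ 2 * L ^ m / z) ≤ η / 8 * ((V * G) ^ m * X) := by
      calc X * Vu * (16 * (m : ℝ) ^ 2 * L ^ m / z) = X * (16 * (m : ℝ) ^ 2 * (1 / z)) * (Vu * L ^ m) := by
            field_simp
        _ ≤ X * (16 * (M : ℝ) ^ 2 * (1 / z)) * (2 * (V * G) ^ m * Q ^ M) := by gcongr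
        _ = (2 * (16 * (M : ℝ) ^ 2 * (1 / z)) * Q ^ M) * ((V * G) ^ m * X) := by ring
        _ ≤ η / 8 * ((V * G) ^ m * X) := by gcongr
    have a2 : X * Vu * (ε * L ^ m) ≤ η / 8 * ((V * G) ^ m * X) := by
      calc X * Vu * (ε * L ^ m) = X * ε * (Vu * L ^ m) := by ring
        _ ≤ X * ε * (2 * (V * G) ^ m * Q ^ M) := by gcongr
        _ = (2 * ε * Q ^ M) * ((V * G) ^ m * X) := by ring
        _ ≤ η / 8 * ((V * G) ^ m * X) := by gcongr
    have a3 : T * E ≤ η / 8 * ((V * G) ^ m * X) := by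
      have b1 : T * E / X * (1 / (V * G)) ^ m ≤ η / 8 := by
        refine le_trans ?_ h5
        gcongr
      calc T * E = T * E / X * (1 / (V * G)) ^ m * ((V * G) ^ m * X) := by
            rw [one_div, inv_pow]
            field_simp
        _ ≤ η / 8 * ((V * G) ^ m * X) := by gcongr
    linarith
  rw [e1]
  refine (abs_add_le _ _).trans ?_
  linarith

theorem aux1 (M C b : ℝ) (h1 : 1 ≤ C) (h2 : 8 * M ≤ b) (hb : 0 < b) : 8 * M ≤ C * b := by nlinarith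

theorem aux2 (M C b lz l : ℝ) (h1 : 8 * M ≤ C * b) (h2 : 8 * C * b * lz ≤ l) (h3 : 0 ≤ lz) (hM : 0 < M) :
    lz ≤ l / (64 * M) := by
  rw [le_div_iff₀ (by positivity)]
  nlinarith

theorem aux3 (E R : ℝ) (h1 : E * E < R + 1) (h2 : 2 ≤ E) : E ≤ R := by nlinarith

theorem aux4 (l M : ℝ) (k : ℝ) (hk : 1 ≤ k) (hM : 1 ≤ M) (hl : 0 < l) : l / (k * M) ≤ l :=
  div_le_self hl.le (by nlinarith)

theorem aux5 (CS l : ℝ) (h : CS ≤ l) (hl : 0 < l) : CS * l ≤ l ^ 2 := by nlinarith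

theorem aux6 (Vu V η : ℝ) (h : |Vu - V| ≤ η / 4 * V) (hη : η ≤ 1) (hV : 0 < V) : 0 ≤ Vu := by
  have := (abs_le.1 h).1
  nlinarith

theorem aux7 (l M : ℝ) (m : ℕ) (hm : (m : ℝ) ≤ M) (hl : 0 < l) (hM : 0 < M) :
    ((2 * m : ℕ) : ℝ) * (l / (32 * M)) ≤ l / 16 := by
  rw [mul_div_assoc', div_le_div_iff₀ (by positivity) (by norm_num)]
  push_cast
  nlinarith

theorem aux8 (l CS : ℝ) (hl : 2 ≤ l) (hCS : 1 ≤ CS) : 1 ≤ (1 + l) ^ 3 * (CS * l) := by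
  have e1 : 1 ≤ (1 + l) ^ 3 := one_le_pow₀ (by linarith)
  have e2 : 1 ≤ CS * l := by nlinarith
  nlinarith

theorem aux9 (C b s l : ℝ) (hC : 0 < C) (hb : 0 < b) (hs : 1 ≤ s) (h : 16 * C * b * s < l) :
    1 ≤ l / (8 * C * b * Real.log 2) := by
  have hlog2' : Real.log 2 < 0.6931471808 := Real.log_two_lt_d9
  have hlog2 : 0.6931471803 < Real.log 2 := Real.log_two_gt_d9
  have h0 : 0 < Real.log 2 := by linarith
  rw [le_div_iff₀ (by positivity), one_mul]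
  have e1 : 16 * (C : ℝ) * b * 1 ≤ 16 * (C : ℝ) * b * s := by gcongr
  have e2 : 8 * (C : ℝ) * b * Real.log 2 ≤ 8 * (C : ℝ) * b * 1 := by gcongr; linarith
  have e3 : 0 < (C : ℝ) * b := by positivity
  linarith

theorem aux10 (C b lz l k : ℝ) (hlz : 0 < lz) (h1 : k * lz ≤ 4 * l) (h2 : l < 16 * C * b * lz) :
    k < 64 * C * b := by
  have e3 : k * lz < (64 * C * b) * lz := by linarith
  exact lt_of_mul_lt_mul_right e3 hlz.le

theorem aux11 (C b s lz l : ℝ) (hC : 0 < C) (hb : 0 < b) (h1 : 16 * C * b * s < l)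
    (h2 : l < 16 * C * b * lz) : s < lz :=
  lt_of_mul_lt_mul_left (h1.trans h2) (by positivity)

theorem aux12 (M l : ℝ) (hM : 0 < M) (h : 64 * M ≤ l) : 2 ≤ Real.exp (l / (64 * M)) := by
  have e4 : (1 : ℝ) ≤ l / (64 * M) := by
    rw [le_div_iff₀ (by positivity), one_mul]
    exact h
  have := Real.add_one_le_exp (l / (64 * M))
  linarith

theorem aux13 (V lz : ℝ) (B : ℕ) (hV : 0 < V) (hlz : 0 < lz) (h : 1 / lz ^ B ≤ V) : 1 / V ≤ lz ^ B := by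
  rw [div_le_iff₀ hV]
  rw [div_le_iff₀ (by positivity)] at h
  linarith

end Pool.Agent.Y917.PSP
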