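import Pool.Agent.Y917.PSP.Maj3
import Pool.Agent.Y917.PSP.Maj4
import Pool.Agent.Y917.PSP.Maj5
import Pool.Agent.TH423.SH.PRDP

/-!
Project PSP (helper727), task MAJ: the majorant of the primes `1 + K W u`.
-/

set_option autoImplicit false

open Finset Filter

namespace Pool.Agent.Y917.PSP

open Pool.Agent.TH423.SH (PS PIj prb prc)
open Pool.Agent.Y727.PSP

theorem PIj_one_pos (W R : ℕ) : 0 < PIj W R 1 := by
  unfold PIj
  apply prod_pos
  intro p hp
  unfold PS at hp
  rw [mem_filter] at hp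
  have h1 : (1 : ℝ) < p := by exact_mod_cast hp.2.1.one_lt
  rw [Nat.cast_one, sub_pos, div_lt_one (by linarith)]
  exact h1

theorem PIj_mono_W (W W' R : ℕ) (h : W' ∣ W) : PIj W' R 1 ≤ PIj W R 1 := by
  have hsub : PS W R ⊆ PS W' R := by
    intro p hp
    unfold PS at hp ⊢
    rw [mem_filter] at hp ⊢
    exact ⟨hp.1, hp.2.1, fun h2 => hp.2.2 (h2.trans h)⟩
  have hf : ∀ p ∈ PS W' R, 0 ≤ 1 - ((1 : ℕ) : ℝ) / (p : ℝ) ∧ 1 - ((1 : ℕ) : ℝ) / (p : ℝ) ≤ 1 := by
    intro p hp
    unfold PS at hp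
    rw [mem_filter] at hp
    have h1 : (1 : ℝ) < p := by exact_mod_cast hp.2.1.one_lt
    constructor
    · rw [Nat.cast_one, sub_nonneg, div_le_one (by linarith)]
      exact h1.le
    · have : (0 : ℝ) ≤ ((1 : ℕ) : ℝ) / p := by positivity
      linarith
  unfold PIj
  rw [← prod_sdiff hsub]
  have h1 : ∏ p ∈ PS W' R \ PS W R, (1 - ((1 : ℕ) : ℝ) / (p : ℝ)) ≤ 1 :=
    prod_le_one (fun p hp => (hf p (mem_sdiff.1 hp).1).1) (fun p hp => (hf p (mem_sdiff.1 hp).1).2)
  have h2 : 0 ≤ ∏ p ∈ PS W R, (1 - ((1 : ℕ) : ℝ) / (p : ℝ)) := (PIj_one_pos W R).le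
  exact mul_le_of_le_one_left h2 h1

open Classical in
/-- the majorant -/
noncomputable def nuM (W z : ℕ) (lam : ℕ → ℝ) (VG : ℝ) (n : ℕ) : ℝ :=
  if ∀ p ∈ PS W z, ¬ p ∣ n then (∑ d ∈ n.divisors, lam d) ^ 2 / VG else 0

open Classical in
theorem sum_nuM (W z X m : ℕ) (lam : ℕ → ℝ) (VG : ℝ) (u : Fin m → ℕ) :
    ∑ K ∈ Ioc X (2 * X), ∏ i, nuM W z lam VG (1 + K * W * u i) =
      (∑ K ∈ (Ioc X (2 * X)).filter (fun K => ∀ p ∈ PS W z, ∀ i, ¬ p ∣ 1 + K * W * u i),
        ∏ i, (∑ d ∈ (1 + K * W * u i).divisors, lam d) ^ 2) / VG ^ m := by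
  rw [sum_div, sum_filter]
  apply sum_congr rfl
  intro K _
  unfold nuM
  rw [prod_ite_zero]
  by_cases h : ∀ p ∈ PS W z, ∀ i, ¬ p ∣ 1 + K * W * u i
  · rw [if_pos h, if_pos fun i _ p hp => h p hp i, prod_div_distrib, prod_const, card_univ, Fintype.card_fin]
  · rw [if_neg h, if_neg]
    intro h2
    exact h fun p hp i => h2 i (mem_univ i) p hp

theorem maj (h1 : S_C1) (h2 : S_SEL) (h3 : S_LOC) : S_MAJ := by
  classical
  intro M₀
  obtain ⟨C, hC1, hC⟩ := h1
  obtain ⟨cS, CS₀, hcS, hCS₀, hSel⟩ := h2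
  obtain ⟨M, hM⟩ : ∃ M, M = max M₀ 1 := ⟨_, rfl⟩
  have hM1 : 1 ≤ M := hM ▸ le_max_right _ _
  have hMM : M₀ ≤ M := hM ▸ le_max_left _ _
  obtain ⟨CS, hCSd⟩ : ∃ CS, CS = max CS₀ 1 := ⟨_, rfl⟩
  have hCS1 : 1 ≤ CS := hCSd ▸ le_max_right _ _
  have hCSS : CS₀ ≤ CS := hCSd ▸ le_max_left _ _
  obtain ⟨B1, R1, hR1⟩ := prc 1 6 (by norm_num) (by
    intro p hp hp4
    have h2 := hp.two_le
    interval_cases p
    · norm_num
    · norm_num
    · exact absurd hp (by norm_num))
  have hMr : (1 : ℝ) ≤ M := by exact_mod_cast hM1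
  have hMr0 : (0 : ℝ) < M := by linarith
  refine ⟨cS / (64 * M), by positivity, fun η₀ hη₀ => ?_⟩
  obtain ⟨η, hηd⟩ : ∃ η, η = min η₀ 1 := ⟨_, rfl⟩
  have hη1 : η ≤ 1 := hηd ▸ min_le_right _ _
  have hηη : η ≤ η₀ := hηd ▸ min_le_left _ _
  have hη : 0 < η := by rw [hηd]; exact lt_min hη₀ one_pos
  choose s₀ hs₀ using fun m => h3 m (η / 4) (by positivity)
  obtain ⟨s1, hs1⟩ : ∃ s1, s1 = ∑ m ∈ range (M + 1), |s₀ m| := ⟨_, rfl⟩
  have hs1m : ∀ m, m ≤ M → s₀ m ≤ s1 := by
    intro m hm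
    rw [hs1]
    exact (le_abs_self _).trans (single_le_sum (f := fun m => |s₀ m|) (fun _ _ => abs_nonneg _)
      (mem_range.2 (by omega)))
  refine ⟨128 * C * (8 * M + 2) + 1 + (B1 + 2), max (C * (M + 1)) (max 6 ⌈s1⌉₊), fun B' => ?_⟩
  have hev := (Real.tendsto_log_atTop.comp tendsto_natCast_atTop_atTop).eventually
    (asym M C B1 B' R1 hM1 CS η hCS1 hη)
  obtain ⟨X₀, hX₀⟩ := eventually_atTop.1 hev
  refine ⟨max X₀ 2, fun X W N hX hOk => ?_⟩
  obtain ⟨hW1, hWX, hN2, hNX, hWs, hWN, hWp⟩ := hOk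
  obtain ⟨b, hb1, hb2, hb3, hb4, hb5, hb6, hb7, hb8, hb9, hb10, hb11, hb12⟩ :=
    hX₀ X ((le_max_left _ _).trans hX)
  simp only [Function.comp] at hb3 hb4 hb5 hb6 hb7 hb8 hb9 hb10 hb11 hb12
  obtain ⟨l, hl⟩ : ∃ l, l = Real.log X := ⟨_, rfl⟩
  rw [← hl] at hb3 hb4 hb5 hb6 hb7 hb8 hb9 hb10 hb11 hb12 hNX hWp ⊢
  have hX2 : 2 ≤ X := (le_max_right _ _).trans hX
  have hX0 : (0 : ℝ) < X := by
    have : 0 < X := by omega
    exact_mod_cast this
  have hXe : Real.exp l = X := by rw [hl, Real.exp_log hX0]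
  have hl0 : 0 < l := by linarith
  have hb0 : 0 < b := by omega
  have hbr : (0 : ℝ) < b := by exact_mod_cast hb0
  have hCr1 : (1 : ℝ) ≤ C := by exact_mod_cast hC1
  have hCr : (0 : ℝ) < C := by linarith
  have hsq0 : 0 < Real.sqrt l := Real.sqrt_pos.2 hl0
  have hsq1 : 1 ≤ Real.sqrt l := Real.one_le_sqrt.2 (by linarith)
  have hlog2 : 0.6931471803 < Real.log 2 := Real.log_two_gt_d9
  have hlog2' : Real.log 2 < 0.6931471808 := Real.log_two_lt_d9
  have hlog20 : 0 < Real.log 2 := by linarith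
  -- the level `z`
  have hy1 : 1 ≤ l / (8 * C * b * Real.log 2) := aux9 C b _ l hCr hbr hsq1 hb3
  obtain ⟨J, hJ1, hJ2⟩ := exists_nat_pow_near hy1 (by norm_num : (1 : ℝ) < 2)
  rw [le_div_iff₀ (by positivity)] at hJ1
  rw [div_lt_iff₀ (by positivity)] at hJ2
  obtain ⟨z, hz⟩ : ∃ z : ℕ, z = 2 ^ 2 ^ J := ⟨_, rfl⟩
  have hzr : (z : ℝ) = (2 : ℝ) ^ 2 ^ J := by rw [hz]; push_cast; rfl
  have hlz : Real.log z = 2 ^ J * Real.log 2 := by
    rw [hzr, Real.log_pow]; push_cast; rfl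
  have hz2 : 2 ≤ z := by
    rw [hz]
    calc 2 = 2 ^ 1 := rfl
      _ ≤ 2 ^ 2 ^ J := Nat.pow_le_pow_right (by norm_num) Nat.one_le_two_pow
  have hz0 : (0 : ℝ) < z := by
    have : 0 < z := by omega
    exact_mod_cast this
  have hz1' : 8 * (C : ℝ) * b * Real.log z ≤ l := by rw [hlz]; linarith
  have hz2' : l < 16 * (C : ℝ) * b * Real.log z := by
    rw [hlz]
    rw [pow_succ] at hJ2
    linarith
  have hlz0 : 0 < Real.log z := by rw [hlz]; positivity
  have hsz : Real.sqrt l < Real.log z := aux11 C b _ _ l hCr hbr hb3 hz2'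
  have hez : Real.exp (Real.sqrt l) < z := by
    rw [← Real.exp_log hz0]
    exact Real.exp_lt_exp.2 hsz
  have hlzl : Real.log z ≤ l / (64 * M) :=
    aux2 M C b _ l (aux1 M C b hCr1 (by exact_mod_cast hb2) hbr) hz1' hlz0.le hMr0
  -- the level `R`
  obtain ⟨R, hR⟩ : ∃ R : ℕ, R = ⌊Real.exp (l / (32 * M))⌋₊ := ⟨_, rfl⟩
  have hRle : (R : ℝ) ≤ Real.exp (l / (32 * M)) := by
    rw [hR]
    exact Nat.floor_le (Real.exp_pos _).le
  have hRge : Real.exp (l / (64 * M)) ≤ R := by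
    have e1 : Real.exp (l / (32 * M)) < (R : ℝ) + 1 := by rw [hR]; exact Nat.lt_floor_add_one _
    have e2 : l / (32 * M) = l / (64 * M) + l / (64 * M) := by field_simp; norm_num
    rw [e2, Real.exp_add] at e1
    exact aux3 _ _ e1 (aux12 M l hMr0 hb9)
  have hzR : z ≤ R := by
    have : (z : ℝ) ≤ R := by
      rw [← Real.exp_log hz0]
      exact (Real.exp_le_exp.2 hlzl).trans hRge
    exact_mod_cast this
  have hR0 : (0 : ℝ) < R := lt_of_lt_of_le (Real.exp_pos _) hRge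
  have hlR1 : l / (64 * M) ≤ Real.log R := by
    rw [Real.le_log_iff_exp_le hR0]
    exact hRge
  have hlR2 : Real.log R ≤ l / (32 * M) := by
    rw [Real.log_le_iff_le_exp hR0]
    exact hRle
  have hl32 : l / (32 * M) ≤ l := aux4 l M 32 (by norm_num) hMr hl0
  have hlR3 : Real.log R ≤ l := hlR2.trans hl32
  have hlR0 : 0 < Real.log R := lt_of_lt_of_le (by positivity) hlR1
  have hRX : R ≤ X := by
    have : (R : ℝ) ≤ X := by
      rw [← hXe]
      exact hRle.trans (Real.exp_le_exp.2 hl32)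
    exact_mod_cast this
  -- the weights
  obtain ⟨lam, hlam1, hlamb, hsupp, hG0, hGup, hGlo⟩ := hSel z R hz2 hzR
  obtain ⟨G, hG⟩ : ∃ G, G = qf R lam := ⟨_, rfl⟩
  rw [← hG] at hG0 hGup hGlo
  obtain ⟨V, hV⟩ : ∃ V, V = PIj W z 1 := ⟨_, rfl⟩
  have hV0 : 0 < V := hV ▸ PIj_one_pos W z
  have hVG0 : 0 < V * G := by positivity
  have h6W : 6 ∣ W := by
    have e2 : 2 ∣ W := hWs 2 Nat.prime_two (by
      have : 6 ≤ max (C * (M + 1)) (max 6 ⌈s1⌉₊) := (le_max_left _ _).trans (le_max_right _ _)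
      omega)
    have e3 : 3 ∣ W := hWs 3 Nat.prime_three (by
      have : 6 ≤ max (C * (M + 1)) (max 6 ⌈s1⌉₊) := (le_max_left _ _).trans (le_max_right _ _)
      omega)
    have := Nat.Coprime.mul_dvd_of_dvd_of_dvd (by norm_num : Nat.Coprime 2 3) e2 e3
    simpa using this
  have hRz : R1 ≤ z := by
    have : (R1 : ℝ) ≤ z := hb8.trans hez.le
    exact_mod_cast this
  have hVlow : 1 / Real.log z ^ B1 ≤ V := by
    rw [hV]
    exact (hR1 z hRz).trans (PIj_mono_W W 6 z h6W)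
  have hlz2 : Real.log z ≤ l := hlzl.trans (aux4 l M 64 (by norm_num) hMr hl0)
  have hGinv : 1 / G ≤ CS * l := by
    rw [div_le_iff₀ hG0]
    refine hGlo.trans ?_
    have e1 : CS₀ * Real.log R ≤ CS * l := by gcongr
    calc G * (CS₀ * Real.log R) ≤ G * (CS * l) := by gcongr
      _ = CS * l * G := mul_comm _ _
  have hVinv : 1 / V ≤ l ^ B1 := by
    have e1 : 1 / V ≤ Real.log z ^ B1 := aux13 V _ B1 hV0 hlz0 hVlow
    exact e1.trans (pow_le_pow_left₀ hlz0.le hlz2 B1)
  have hVGinv : 1 / (V * G) ≤ l ^ (B1 + 2) := by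
    have e1 : 1 / (V * G) = (1 / V) * (1 / G) := by rw [one_div_mul_one_div]
    rw [e1, pow_add]
    have e2 : CS * l ≤ l ^ 2 := aux5 CS l hb10 hl0
    have e3 : 0 ≤ 1 / G := by positivity
    calc (1 / V) * (1 / G) ≤ l ^ B1 * (CS * l) := by gcongr
      _ ≤ l ^ B1 * l ^ 2 := by gcongr
  have hWz : ∀ p : ℕ, p.Prime → p ∣ W → p ≤ z := by
    intro p hp hpW
    have : (p : ℝ) ≤ z := (hWp p hp hpW).trans hez.le
    exact_mod_cast this
  have hNz : N ≤ z := by
    have : (N : ℝ) ≤ z := hNX.trans (hb4.le.trans hez.le)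
    exact_mod_cast this
  refine ⟨nuM W z lam (V * G), ?_, ?_, ?_, ?_⟩
  · intro n
    unfold nuM
    split_ifs <;> positivity
  · -- the pointwise bound
    intro n hn
    have hpos : (0 : ℝ) ≤ l ^ (128 * C * (8 * M + 2) + 1 + (B1 + 2)) := by positivity
    unfold nuM
    split_ifs with hr
    · rcases Nat.eq_zero_or_pos n with h0 | h0
      · rw [h0]
        simpa using hpos
      · obtain ⟨k, hk1, hk2⟩ := div_bound R z lam (fun d hd => by
          have := hsupp d hd
          exact ⟨this.2.2.1, this.1, this.2.1, this.2.2.2⟩) hlamb n h0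
        have hk : k ≤ 64 * C * b := by
          have e1 : (z : ℝ) ^ k ≤ (X : ℝ) ^ 4 := by exact_mod_cast hk1.trans hn
          have e2 := Real.log_le_log (by positivity) e1
          rw [Real.log_pow, Real.log_pow, ← hl] at e2
          have e4 : (k : ℝ) < 64 * C * b := aux10 C b _ l k hlz0 (by exact_mod_cast e2) hz2'
          exact_mod_cast e4.le
        have e5 : (4 : ℝ) ^ k ≤ l ^ (128 * C * (8 * M + 2) + 1) := by
          calc (4 : ℝ) ^ k ≤ 4 ^ (64 * C * b) := pow_le_pow_right₀ (by norm_num) hk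
            _ = 2 ^ (128 * C * b) := by
              rw [show (4 : ℝ) = 2 ^ 2 by norm_num, ← pow_mul]
              congr 1
              ring
            _ ≤ _ := hb12
        calc (∑ d ∈ n.divisors, lam d) ^ 2 / (V * G) = (∑ d ∈ n.divisors, lam d) ^ 2 * (1 / (V * G)) := by
              rw [mul_one_div]
          _ ≤ l ^ (128 * C * (8 * M + 2) + 1) * l ^ (B1 + 2) := by
              have := hk2.trans e5
              have e6 : 0 ≤ 1 / (V * G) := by positivity
              gcongr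
          _ = _ := by rw [← pow_add]
    · exact hpos
  · -- primes
    intro p hp hXp
    unfold nuM
    rw [if_pos]
    · rw [Nat.Prime.sum_divisors hp, hlam1]
      have e1 : lam p = 0 := by
        by_contra h
        have := (hsupp p h).2.1
        omega
      rw [e1, zero_add, one_pow, le_div_iff₀ hVG0]
      have e2 := prb W z hW1 hz2
      rw [← hV] at e2
      have e3 : cS / (64 * M) * l * G ≤ Real.log z := by
        refine le_trans ?_ hGup
        have : cS / (64 * M) * l * G = G * (cS * (l / (64 * M))) := by ring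
        rw [this]
        gcongr
      have hW0 : (0 : ℝ) < W := by
        have : 0 < W := hW1
        exact_mod_cast this
      calc cS / (64 * M) * ((W.totient : ℝ) / W) * l * (V * G)
          = (cS / (64 * M) * l * G) * (V * W.totient) / W := by ring
        _ ≤ Real.log z * (V * W.totient) / W := by gcongr
        _ = (V * Real.log z * W.totient) / W := by ring
        _ ≤ W / W := by gcongr
        _ = 1 := div_self hW0.ne'
    · intro q hq hqp
      unfold PS at hq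
      rw [mem_filter, mem_Icc] at hq
      have := (Nat.prime_dvd_prime_iff_eq hq.2.1 hp).1 hqp
      omega
  · -- correlations
    intro m hm u hinj hu
    refine le_trans ?_ hηη
    have hmM : m ≤ M := hm.trans hMM
    rw [sum_nuM, expand' W z X R lam (fun d hd => ⟨(hsupp d hd).1, (hsupp d hd).2.1⟩) u]
    have hsupp' : ∀ d, lam d ≠ 0 → 1 ≤ d ∧ d ≤ R ∧ ∀ p : ℕ, p.Prime → p ∣ d → z < p := by
      intro d hd
      have := hsupp d hd
      exact ⟨this.1, this.2.1, this.2.2.2⟩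
    have hloc := hs₀ m (max (Real.log N) s1) ((hs1m m hmM).trans (le_max_right _ _)) W hW1 (by
      intro p hp hps
      rcases le_max_iff.1 hps with h | h
      · exact hWN p hp h
      · apply hWs p hp
        refine le_trans ?_ ((le_max_right _ _).trans (le_max_right _ _))
        have : (p : ℝ) ≤ (⌈s1⌉₊ : ℝ) := h.trans (Nat.le_ceil _)
        exact_mod_cast this) u hinj (by
      intro i
      refine ⟨(hu i).1, le_trans ?_ (le_max_left _ _)⟩
      apply Real.log_le_log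
      · have := (hu i).1
        have : 0 < u i := by omega
        exact_mod_cast this
      · exact_mod_cast (hu i).2) z
    rw [← hV] at hloc
    obtain ⟨Vu, hVu⟩ : ∃ Vu, Vu = ∏ p ∈ PS W z, (1 - (rho W u p : ℝ) / p) := ⟨_, rfl⟩
    rw [← hVu] at hloc
    have hVu0 : 0 ≤ Vu := aux6 Vu (V ^ m) η hloc hη1 (by positivity)
    have hcorr := corr m R z lam (by omega) hsupp' hlamb
      (fun x => cn W z X u x) (X * Vu) ((1 / 2 : ℝ) ^ b)
      (((2 : ℝ) ^ 2 ^ J) ^ (C * b)) (by positivity) (by positivity) (by positivity)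
      (by
        intro x hx hcop
        rw [hVu]
        subst hz
        exact cnt_cop C b W J X m R u lam hsupp' (fun i => ⟨(hu i).1, (hu i).2.trans hNz⟩) hWz
          (fun D a hD hDp => hC m b W (by
            refine le_trans ?_ hb1
            gcongr) hW1 (fun p hp hpC => hWs p hp (hpC.trans (le_trans (by gcongr) (le_max_left _ _))))
            u J D a X hD hDp) x hx hcop)
      (by
        intro x hx hcop
        subst hz
        exact cnt_ncop W J X m R N u hinj lam hsupp' hu hNz x hx hcop)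
    rw [← hG] at hcorr
    have hRX2 : (R : ℝ) ^ (2 * m) ≤ Real.exp (l / 16) := by
      calc (R : ℝ) ^ (2 * m) ≤ Real.exp (l / (32 * M)) ^ (2 * m) := pow_le_pow_left₀ hR0.le hRle _
        _ = Real.exp ((2 * m : ℕ) * (l / (32 * M))) := by rw [Real.exp_nat_mul]
        _ ≤ Real.exp (l / 16) := by
          apply Real.exp_le_exp.2
          exact aux7 l M m (by exact_mod_cast hmM) hl0 hMr0
    have hEe : ((2 : ℝ) ^ 2 ^ J) ^ (C * b) ≤ Real.exp (l / 8) := by
      rw [← hzr, pow_eq_exp z hz0]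
      apply Real.exp_le_exp.2
      push_cast
      linarith
    have hlR3' : 0 ≤ Real.log R := hlR0.le
    exact final_real m M hmM X V G Vu ((1 + Real.log R) ^ 3) _ z ((1 / 2 : ℝ) ^ b)
      (((2 : ℝ) ^ 2 ^ J) ^ (C * b)) ((R : ℝ) ^ (2 * m)) η ((1 + l) ^ 3 * (CS * l)) (l ^ (B1 + 2)) hX0 hV0 hG0 hη
      hη1 hz0 (by positivity) (by positivity) (by positivity) (by positivity) hloc hcorr
      (by
        rw [div_eq_mul_one_div]
        have e3 : 0 ≤ 1 / G := by positivity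
        gcongr)
      (aux8 l CS hb11 hCS1)
      hVGinv (one_le_pow₀ (by linarith))
      (by
        refine le_trans ?_ hb6
        have e1 : 1 / (z : ℝ) ≤ Real.exp (-Real.sqrt l) := by
          rw [Real.exp_neg, one_div]
          exact inv_anti₀ (Real.exp_pos _) hez.le
        gcongr)
      hb5
      (by
        refine le_trans ?_ hb7
        have e1 : (R : ℝ) ^ (2 * m) * ((2 : ℝ) ^ 2 ^ J) ^ (C * b) / X ≤ Real.exp (-(13 / 16 * l)) := by
          rw [div_le_iff₀ hX0, ← hXe, ← Real.exp_add]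
          calc (R : ℝ) ^ (2 * m) * ((2 : ℝ) ^ 2 ^ J) ^ (C * b) ≤ Real.exp (l / 16) * Real.exp (l / 8) := by
                gcongr
            _ = Real.exp (-(13 / 16 * l) + l) := by
                rw [← Real.exp_add]
                congr 1
                ring
        gcongr)

end Pool.Agent.Y917.PSP
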