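import Pool.Agent.Y917.PSP.Maj2

/-!
Project PSP (helper727), task MAJ, part 3: the number of solutions of the divisibility conditions.
-/

set_option autoImplicit false

open Finset

namespace Pool.Agent.Y917.PSP

open Pool.Agent.TH423.SH (PS PIj)
open Pool.Agent.Y727.PSP (qf rho)

/-- one congruence -/
theorem one_class (D w : ℕ) (hD : 1 ≤ D) (hc : Nat.Coprime w D) :
    ∃ a : ℕ, ∀ K : ℕ, D ∣ 1 + K * w ↔ K ≡ a [MOD D] := by
  have : NeZero D := ⟨by omega⟩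
  obtain ⟨v, hv⟩ := (ZMod.isUnit_iff_coprime w D).2 hc
  refine ⟨(-((v⁻¹ : (ZMod D)ˣ) : ZMod D)).val, fun K => ?_⟩
  rw [← ZMod.natCast_eq_natCast_iff, ZMod.natCast_zmod_val, ← ZMod.natCast_eq_zero_iff]
  push_cast
  rw [← hv]
  constructor
  · intro h
    have h1 : (K : ZMod D) * (v : ZMod D) = -1 := by linear_combination h
    calc (K : ZMod D) = (K * v) * ((v⁻¹ : (ZMod D)ˣ) : ZMod D) := by
          rw [mul_assoc, Units.mul_inv, mul_one]
      _ = -((v⁻¹ : (ZMod D)ˣ) : ZMod D) := by rw [h1]; ring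
  · intro h
    rw [h, neg_mul, Units.inv_mul]
    ring

/-- several congruences -/
theorem all_class {m : ℕ} (D w : Fin m → ℕ) (hD : ∀ i, 1 ≤ D i) (hc : ∀ i, Nat.Coprime (w i) (D i))
    (hcop : ∀ i j, i ≠ j → Nat.Coprime (D i) (D j)) :
    ∃ a : ℕ, ∀ K : ℕ, (∀ i, D i ∣ 1 + K * w i) ↔ K % (∏ i, D i) = a % (∏ i, D i) := by
  choose c hcK using fun i => one_class (D i) (w i) (hD i) (hc i)
  obtain ⟨a, ha⟩ := Nat.chineseRemainderOfFinset c D univ (fun i _ => by have := hD i; omega)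
    (fun i _ j _ hij => hcop i j hij)
  refine ⟨a, fun K => ?_⟩
  have h1 : (∀ i, D i ∣ 1 + K * w i) ↔ ∀ i, K ≡ a [MOD D i] := by
    apply forall_congr'
    intro i
    rw [hcK i K]
    exact ⟨fun h => h.trans (ha i (mem_univ i)).symm, fun h => h.trans (ha i (mem_univ i))⟩
  rw [h1]
  constructor
  · intro h
    show K ≡ a [MOD ∏ i, D i]
    rw [Nat.modEq_iff_dvd]
    push_cast
    apply Finset.prod_dvd_of_coprime
    · intro i _ j _ hij
      rw [Function.onFun, Nat.isCoprime_iff_coprime]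
      exact hcop i j hij
    · intro i _
      exact Nat.modEq_iff_dvd.1 (h i)
  · intro h i
    have h2 : K ≡ a [MOD ∏ i, D i] := h
    exact h2.of_dvd (dvd_prod_of_mem D (mem_univ i))

open Classical in
/-- the number of `K` with the divisibility conditions -/
noncomputable def cn (W z X : ℕ) {m : ℕ} (u : Fin m → ℕ) (x : Fin m → ℕ × ℕ) : ℝ :=
  ((((Ioc X (2 * X)).filter (fun K => ∀ p ∈ PS W z, ∀ i, ¬ p ∣ 1 + K * W * u i)).filter
      (fun K => ∀ i, Dl (x i) ∣ 1 + K * W * u i)).card : ℝ)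

open Classical in
theorem expand' (W z X R : ℕ) (lam : ℕ → ℝ) (hlam : ∀ d, lam d ≠ 0 → 1 ≤ d ∧ d ≤ R) {m : ℕ} (u : Fin m → ℕ) :
    ∑ K ∈ (Ioc X (2 * X)).filter (fun K => ∀ p ∈ PS W z, ∀ i, ¬ p ∣ 1 + K * W * u i),
      ∏ i, (∑ d ∈ (1 + K * W * u i).divisors, lam d) ^ 2 =
    ∑ x ∈ Fintype.piFinset (fun _ : Fin m => TT R lam), (∏ i, wt lam (x i)) * cn W z X u x := by
  rw [expand R lam hlam (fun i K => 1 + K * W * u i) (fun i K => by positivity)]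
  apply sum_congr rfl
  intro x _
  unfold cn
  congr! 3

open Classical in
/-- the tuples with coprime moduli -/
theorem cnt_cop (C b W J X m R : ℕ) (u : Fin m → ℕ) (lam : ℕ → ℝ)
    (hlam : ∀ d, lam d ≠ 0 → 1 ≤ d ∧ d ≤ R ∧ ∀ p : ℕ, p.Prime → p ∣ d → 2 ^ 2 ^ J < p)
    (hu : ∀ i, 1 ≤ u i ∧ u i ≤ 2 ^ 2 ^ J) (hW : ∀ p : ℕ, p.Prime → p ∣ W → p ≤ 2 ^ 2 ^ J)
    (hC : ∀ (D a : ℕ), 1 ≤ D → (∀ p ∈ PS W (2 ^ 2 ^ J), ¬ p ∣ D) →
      |(((Ioc X (2 * X)).filter (fun K => K % D = a % D ∧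
      ∀ p ∈ PS W (2 ^ 2 ^ J), ∀ i, ¬ p ∣ 1 + K * W * u i)).card : ℝ) -
      (X : ℝ) / D * ∏ p ∈ PS W (2 ^ 2 ^ J), (1 - (rho W u p : ℝ) / p)| ≤
      (1 / 2 : ℝ) ^ b * ((X : ℝ) / D * ∏ p ∈ PS W (2 ^ 2 ^ J), (1 - (rho W u p : ℝ) / p)) +
        ((2 : ℝ) ^ 2 ^ J) ^ (C * b))
    (x : Fin m → ℕ × ℕ) (hx : ∀ i, x i ∈ TT R lam)
    (hcop : ∀ i j, i ≠ j → Nat.Coprime (Dl (x i)) (Dl (x j))) :
    |cn W (2 ^ 2 ^ J) X u x -
      (X * ∏ p ∈ PS W (2 ^ 2 ^ J), (1 - (rho W u p : ℝ) / p)) * ∏ i, (1 : ℝ) / (Dl (x i) : ℝ)| ≤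
      (1 / 2 : ℝ) ^ b * ((X * ∏ p ∈ PS W (2 ^ 2 ^ J), (1 - (rho W u p : ℝ) / p)) *
        ∏ i, (1 : ℝ) / (Dl (x i) : ℝ)) + ((2 : ℝ) ^ 2 ^ J) ^ (C * b) := by
  have hDp : ∀ i, ∀ p : ℕ, p.Prime → p ∣ Dl (x i) → 2 ^ 2 ^ J < p := by
    intro i p hp hpi
    have hxi := mem_TT.1 (hx i)
    rcases (Nat.Prime.dvd_lcm hp).1 hpi with h1 | h1
    · exact (hlam _ hxi.2.1).2.2 p hp h1
    · exact (hlam _ hxi.2.2).2.2 p hp h1
  have hD1 : ∀ i, 1 ≤ Dl (x i) := fun i => Dl_pos (hx i)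
  obtain ⟨a, ha⟩ := all_class (fun i => Dl (x i)) (fun i => W * u i) hD1 (by
    intro i
    apply Nat.Coprime.symm
    rw [Nat.coprime_iff_gcd_eq_one]
    by_contra hne
    obtain ⟨p, hp, hpd⟩ := Nat.exists_prime_and_dvd hne
    have h1 := hDp i p hp (hpd.trans (Nat.gcd_dvd_left _ _))
    rcases (Nat.Prime.dvd_mul hp).1 (hpd.trans (Nat.gcd_dvd_right _ _)) with h2 | h2
    · have := hW p hp h2
      omega
    · have := Nat.le_of_dvd (hu i).1 h2
      have := (hu i).2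
      omega) hcop
  have h1 := hC (∏ i, Dl (x i)) a (Nat.one_le_iff_ne_zero.2 (prod_ne_zero_iff.2 fun i _ => by
    have := hD1 i; omega)) (by
    intro p hp hpd
    unfold PS at hp
    rw [mem_filter, mem_Icc] at hp
    obtain ⟨i, _, hi⟩ := (Nat.Prime.prime hp.2.1).exists_mem_finset_dvd hpd
    have := hDp i p hp.2.1 hi
    omega)
  have h2 : cn W (2 ^ 2 ^ J) X u x = (((Ioc X (2 * X)).filter (fun K => K % (∏ i, Dl (x i)) =
      a % (∏ i, Dl (x i)) ∧ ∀ p ∈ PS W (2 ^ 2 ^ J), ∀ i, ¬ p ∣ 1 + K * W * u i)).card : ℝ) := by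
    unfold cn
    refine congrArg (fun s : Finset ℕ => (s.card : ℝ)) ?_
    ext K
    simp only [mem_filter]
    have h3 := ha K
    simp only [← mul_assoc] at h3
    rw [h3]
    tauto
  rw [h2]
  have h4 : (X : ℝ) / ((∏ i, Dl (x i) : ℕ) : ℝ) = X * ∏ i, (1 : ℝ) / (Dl (x i) : ℝ) := by
    push_cast
    rw [prod_div_distrib, prod_const_one, mul_one_div]
  rw [h4] at h1
  have h5 : ∀ V : ℝ, (X * V) * ∏ i, (1 : ℝ) / (Dl (x i) : ℝ) = X * (∏ i, (1 : ℝ) / (Dl (x i) : ℝ)) * V :=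
    fun V => by ring
  rw [h5]
  exact h1

open Classical in
/-- the tuples with a common prime factor -/
theorem cnt_ncop (W J X m R N : ℕ) (u : Fin m → ℕ) (hinj : Function.Injective u) (lam : ℕ → ℝ)
    (hlam : ∀ d, lam d ≠ 0 → 1 ≤ d ∧ d ≤ R ∧ ∀ p : ℕ, p.Prime → p ∣ d → 2 ^ 2 ^ J < p)
    (hu : ∀ i, 1 ≤ u i ∧ u i ≤ N) (hN : N ≤ 2 ^ 2 ^ J) (x : Fin m → ℕ × ℕ) (hx : ∀ i, x i ∈ TT R lam)
    (hcop : ¬ ∀ i j, i ≠ j → Nat.Coprime (Dl (x i)) (Dl (x j))) :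
    cn W (2 ^ 2 ^ J) X u x = 0 := by
  unfold cn
  rw [Nat.cast_eq_zero, card_eq_zero, filter_eq_empty_iff]
  intro K _ hK
  push Not at hcop
  obtain ⟨i, j, hij, hc⟩ := hcop
  obtain ⟨p, hp, hpi, hpj⟩ := Nat.Prime.not_coprime_iff_dvd.1 hc
  have hpz : 2 ^ 2 ^ J < p := by
    have hxi := mem_TT.1 (hx i)
    rcases (Nat.Prime.dvd_lcm hp).1 hpi with h1 | h1
    · exact (hlam _ hxi.2.1).2.2 p hp h1
    · exact (hlam _ hxi.2.2).2.2 p hp h1
  have h1 : (p : ℤ) ∣ 1 + K * W * u i := by exact_mod_cast hpi.trans (hK i)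
  have h2 : (p : ℤ) ∣ 1 + K * W * u j := by exact_mod_cast hpj.trans (hK j)
  have h3 : (p : ℤ) ∣ (u j : ℤ) - u i := by
    have e : (u j : ℤ) - u i = u j * (1 + K * W * u i) - u i * (1 + K * W * u j) := by ring
    rw [e]
    exact dvd_sub (h1.mul_left _) (h2.mul_left _)
  have h4 : (u j : ℤ) - u i ≠ 0 := by
    intro h
    apply hij
    apply hinj
    omega
  have h5 := Int.le_of_dvd (abs_pos.2 h4) ((dvd_abs _ _).2 h3)
  have h6 : |(u j : ℤ) - u i| ≤ N := by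
    rw [abs_le]
    have := hu i
    have := hu j
    omega
  omega

open Classical in
/-- few divisors in the support of the weights -/
theorem div_bound (R z : ℕ) (lam : ℕ → ℝ)
    (hlam : ∀ d, lam d ≠ 0 → Squarefree d ∧ 1 ≤ d ∧ d ≤ R ∧ ∀ p : ℕ, p.Prime → p ∣ d → z < p)
    (hl1 : ∀ d, |lam d| ≤ 1) (n : ℕ) (hn : 0 < n) :
    ∃ k : ℕ, z ^ k ≤ n ∧ (∑ d ∈ n.divisors, lam d) ^ 2 ≤ (4 : ℝ) ^ k := by
  set P := n.primeFactors.filter (fun p => z < p) with hP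
  refine ⟨P.card, ?_, ?_⟩
  · calc z ^ P.card = ∏ p ∈ P, z := by rw [prod_const]
      _ ≤ ∏ p ∈ P, p := prod_le_prod' fun p hp => (mem_filter.1 hp).2.le
      _ ≤ n := by
        apply Nat.le_of_dvd hn
        exact (prod_dvd_prod_of_subset P n.primeFactors (fun p => p) (filter_subset _ _)).trans
          (Nat.prod_primeFactors_dvd n)
  · have h1 : |∑ d ∈ n.divisors, lam d| ≤ (2 : ℝ) ^ P.card := by
      rw [← sum_filter_ne_zero]
      refine (abs_sum_le_sum_abs _ _).trans ?_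
      refine (sum_le_sum fun d _ => hl1 d).trans ?_
      rw [sum_const, nsmul_eq_mul, mul_one]
      have h2 : (n.divisors.filter (fun d => lam d ≠ 0)).card ≤ P.powerset.card := by
        apply card_le_card_of_injOn (fun d => d.primeFactors)
        · intro d hd
          rw [mem_coe, mem_filter, Nat.mem_divisors] at hd
          rw [mem_coe, mem_powerset]
          intro p hp
          rw [hP, mem_filter]
          exact ⟨Nat.primeFactors_mono hd.1.1 hn.ne' hp,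
            (hlam d hd.2).2.2.2 p (Nat.prime_of_mem_primeFactors hp) (Nat.dvd_of_mem_primeFactors hp)⟩
        · intro d hd e he hde
          rw [mem_coe, mem_filter] at hd he
          have e1 := Nat.prod_primeFactors_of_squarefree (hlam d hd.2).1
          have e2 := Nat.prod_primeFactors_of_squarefree (hlam e he.2).1
          rw [← e1, ← e2]
          simp only at hde
          rw [hde]
      rw [card_powerset] at h2
      exact_mod_cast h2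
    calc (∑ d ∈ n.divisors, lam d) ^ 2 = |∑ d ∈ n.divisors, lam d| ^ 2 := (sq_abs _).symm
      _ ≤ ((2 : ℝ) ^ P.card) ^ 2 := pow_le_pow_left₀ (abs_nonneg _) h1 2
      _ = 4 ^ P.card := by rw [← pow_mul, mul_comm, pow_mul]; norm_num

end Pool.Agent.Y917.PSP
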