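import Mathlib

/-!
Project PSP (helper727), task MAJ, part 1: sums of `1 / lcm`.
-/

set_option autoImplicit false

open Finset

namespace Pool.Agent.Y917.PSP

theorem harm (R : ℕ) : ∑ d ∈ Icc 1 R, (1 : ℝ) / d ≤ 1 + Real.log R := by
  have h := harmonic_le_one_add_log R
  rw [harmonic_eq_sum_Icc] at h
  push_cast at h
  simpa only [one_div] using h

theorem harm_nonneg (R : ℕ) : 0 ≤ 1 + Real.log R := by
  have := Real.log_natCast_nonneg R
  linarith

theorem harm_dvd (R g : ℕ) (hg : 1 ≤ g) :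
    ∑ d ∈ Icc 1 R, (if g ∣ d then (1 : ℝ) / d else 0) ≤ (1 + Real.log R) / g := by
  rw [← sum_filter]
  have hg0 : (0 : ℝ) < g := by exact_mod_cast hg
  have h1 : (Icc 1 R).filter (fun d => g ∣ d) ⊆ (Icc 1 R).image (fun d => g * d) := by
    intro d hd
    rw [mem_filter, mem_Icc] at hd
    obtain ⟨⟨h1, h2⟩, k, rfl⟩ := hd
    rw [mem_image]
    refine ⟨k, ?_, rfl⟩
    rw [mem_Icc]
    constructor
    · rcases Nat.eq_zero_or_pos k with h | h
      · rw [h, mul_zero] at h1; omega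
      · exact h
    · exact (Nat.le_mul_of_pos_left k hg).trans h2
  calc ∑ d ∈ (Icc 1 R).filter (fun d => g ∣ d), (1 : ℝ) / d
      ≤ ∑ d ∈ (Icc 1 R).image (fun d => g * d), (1 : ℝ) / d :=
        sum_le_sum_of_subset_of_nonneg h1 fun i _ _ => by positivity
    _ = ∑ d ∈ Icc 1 R, (1 : ℝ) / ((g * d : ℕ) : ℝ) := by
        rw [sum_image]
        intro a _ b _ hab
        exact Nat.eq_of_mul_eq_mul_left hg hab
    _ = (∑ d ∈ Icc 1 R, (1 : ℝ) / d) / g := by
        rw [sum_div]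
        apply sum_congr rfl
        intro d _
        push_cast
        rw [div_div, mul_comm]
    _ ≤ _ := by
        gcongr
        exact harm R

theorem lcm_eq (a d : ℕ) (ha : 1 ≤ a) (hd : 1 ≤ d) :
    (1 : ℝ) / (Nat.lcm a d : ℕ) = (Nat.gcd a d : ℝ) / (a * d) := by
  have h := Nat.gcd_mul_lcm a d
  have h1 : ((Nat.gcd a d : ℕ) : ℝ) * (Nat.lcm a d : ℕ) = a * d := by exact_mod_cast h
  have h2 : (0 : ℝ) < (Nat.lcm a d : ℕ) := by
    exact_mod_cast Nat.lcm_pos ha hd
  have h3 : (0 : ℝ) < (a : ℝ) * d := by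
    have : (0 : ℝ) < a := by exact_mod_cast ha
    have : (0 : ℝ) < d := by exact_mod_cast hd
    positivity
  rw [div_eq_div_iff h2.ne' h3.ne', ← h1]
  ring

theorem lcm_sum (R a : ℕ) (ha : 1 ≤ a) :
    ∑ d ∈ Icc 1 R, (1 : ℝ) / (Nat.lcm a d : ℕ) ≤ (a.divisors.card : ℝ) * (1 + Real.log R) / a := by
  have ha0 : (0 : ℝ) < a := by exact_mod_cast ha
  calc ∑ d ∈ Icc 1 R, (1 : ℝ) / (Nat.lcm a d : ℕ)
      ≤ ∑ d ∈ Icc 1 R, ∑ g ∈ a.divisors, (if g ∣ d then (g : ℝ) / (a * d) else 0) := by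
        apply sum_le_sum
        intro d hd
        rw [mem_Icc] at hd
        rw [lcm_eq a d ha hd.1]
        have h1 : Nat.gcd a d ∈ a.divisors := by
          rw [Nat.mem_divisors]
          exact ⟨Nat.gcd_dvd_left a d, by omega⟩
        have h2 := single_le_sum (f := fun g : ℕ => (if g ∣ d then (g : ℝ) / (a * d) else 0))
          (fun g _ => by split_ifs <;> positivity) h1
        refine le_trans ?_ h2
        rw [if_pos (Nat.gcd_dvd_right a d)]
    _ = ∑ g ∈ a.divisors, ((g : ℝ) / a) * ∑ d ∈ Icc 1 R, (if g ∣ d then (1 : ℝ) / d else 0) := by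
        rw [sum_comm]
        apply sum_congr rfl
        intro g _
        rw [mul_sum]
        apply sum_congr rfl
        intro d _
        split_ifs
        · rw [div_mul_div_comm, mul_one]
        · rw [mul_zero]
    _ ≤ ∑ g ∈ a.divisors, (1 + Real.log R) / a := by
        apply sum_le_sum
        intro g hg
        have hg1 : 1 ≤ g := Nat.pos_of_mem_divisors hg
        have hg0 : (0 : ℝ) < g := by exact_mod_cast hg1
        calc ((g : ℝ) / a) * ∑ d ∈ Icc 1 R, (if g ∣ d then (1 : ℝ) / d else 0)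
            ≤ ((g : ℝ) / a) * ((1 + Real.log R) / g) := by
              gcongr
              exact harm_dvd R g hg1
          _ = _ := by field_simp
    _ = _ := by
        rw [sum_const, nsmul_eq_mul]
        ring

/-- the double sum of `1 / lcm (d, e)` over the multiples `d` of `q` -/
theorem lcm_sum2 (R q : ℕ) (hq : 1 ≤ q) :
    ∑ d ∈ Icc 1 R, ∑ e ∈ Icc 1 R, (if q ∣ d then (1 : ℝ) / (Nat.lcm d e : ℕ) else 0) ≤
      (q.divisors.card : ℝ) * (1 + Real.log R) ^ 3 / q := by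
  have hR := harm_nonneg R
  have hq0 : (0 : ℝ) < q := by exact_mod_cast hq
  calc ∑ d ∈ Icc 1 R, ∑ e ∈ Icc 1 R, (if q ∣ d then (1 : ℝ) / (Nat.lcm d e : ℕ) else 0)
      ≤ ∑ d ∈ Icc 1 R, ∑ e ∈ Icc 1 R, ∑ g ∈ Icc 1 R,
        (g : ℝ) * (if Nat.lcm q g ∣ d then (1 : ℝ) / d else 0) * (if g ∣ e then (1 : ℝ) / e else 0) := by
        apply sum_le_sum
        intro d hd
        apply sum_le_sum
        intro e he
        rw [mem_Icc] at hd he
        split_ifs with hqd
        · rw [lcm_eq d e hd.1 he.1]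
          have h1 : Nat.gcd d e ∈ Icc 1 R := by
            rw [mem_Icc]
            exact ⟨Nat.gcd_pos_of_pos_left _ hd.1, (Nat.gcd_le_left e hd.1).trans hd.2⟩
          have h2 := single_le_sum (f := fun g : ℕ => (g : ℝ) *
            (if Nat.lcm q g ∣ d then (1 : ℝ) / d else 0) * (if g ∣ e then (1 : ℝ) / e else 0))
            (fun g _ => by split_ifs <;> positivity) h1
          refine le_trans ?_ h2
          rw [if_pos (Nat.lcm_dvd hqd (Nat.gcd_dvd_left d e)), if_pos (Nat.gcd_dvd_right d e)]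
          rw [mul_one_div, mul_one_div, div_div]
        · exact sum_nonneg fun g _ => by
            split_ifs <;> positivity
    _ = ∑ g ∈ Icc 1 R, (g : ℝ) * (∑ d ∈ Icc 1 R, (if Nat.lcm q g ∣ d then (1 : ℝ) / d else 0)) *
          ∑ e ∈ Icc 1 R, (if g ∣ e then (1 : ℝ) / e else 0) := by
        have h1 : ∀ d ∈ Icc 1 R, ∑ e ∈ Icc 1 R, ∑ g ∈ Icc 1 R,
            (g : ℝ) * (if Nat.lcm q g ∣ d then (1 : ℝ) / d else 0) * (if g ∣ e then (1 : ℝ) / e else 0) =
            ∑ g ∈ Icc 1 R, (g : ℝ) * (if Nat.lcm q g ∣ d then (1 : ℝ) / d else 0) *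
              ∑ e ∈ Icc 1 R, (if g ∣ e then (1 : ℝ) / e else 0) := by
          intro d _
          rw [sum_comm]
          apply sum_congr rfl
          intro g _
          rw [mul_sum]
        rw [sum_congr rfl h1, sum_comm]
        apply sum_congr rfl
        intro g _
        rw [← sum_mul, ← mul_sum]
    _ ≤ ∑ g ∈ Icc 1 R, (g : ℝ) * ((1 + Real.log R) / (Nat.lcm q g : ℕ)) * ((1 + Real.log R) / g) := by
        apply sum_le_sum
        intro g hg
        rw [mem_Icc] at hg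
        have hl : 1 ≤ Nat.lcm q g := Nat.lcm_pos hq hg.1
        have h1 := harm_dvd R (Nat.lcm q g) hl
        have h2 := harm_dvd R g hg.1
        have h3 : 0 ≤ ∑ e ∈ Icc 1 R, (if g ∣ e then (1 : ℝ) / e else 0) :=
          sum_nonneg fun e _ => by split_ifs <;> positivity
        gcongr
    _ = (1 + Real.log R) ^ 2 * ∑ g ∈ Icc 1 R, (1 : ℝ) / (Nat.lcm q g : ℕ) := by
        rw [mul_sum]
        apply sum_congr rfl
        intro g hg
        rw [mem_Icc] at hg
        have hg0 : (g : ℝ) ≠ 0 := by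
          have : 0 < g := hg.1
          positivity
        field_simp
    _ ≤ (1 + Real.log R) ^ 2 * ((q.divisors.card : ℝ) * (1 + Real.log R) / q) := by
        gcongr
        exact lcm_sum R q hq
    _ = _ := by ring

theorem lcm_sum_one (R : ℕ) :
    ∑ d ∈ Icc 1 R, ∑ e ∈ Icc 1 R, (1 : ℝ) / (Nat.lcm d e : ℕ) ≤ (1 + Real.log R) ^ 3 := by
  have h := lcm_sum2 R 1 le_rfl
  simpa using h

theorem lcm_sum_prime (R p : ℕ) (hp : p.Prime) :
    ∑ d ∈ Icc 1 R, ∑ e ∈ Icc 1 R, (if p ∣ Nat.lcm d e then (1 : ℝ) / (Nat.lcm d e : ℕ) else 0) ≤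
      4 * (1 + Real.log R) ^ 3 / p := by
  have h := lcm_sum2 R p hp.one_lt.le
  have h2 : (p.divisors.card : ℝ) = 2 := by
    rw [Nat.Prime.divisors hp, card_pair hp.one_lt.ne]
    norm_num
  rw [h2] at h
  calc ∑ d ∈ Icc 1 R, ∑ e ∈ Icc 1 R, (if p ∣ Nat.lcm d e then (1 : ℝ) / (Nat.lcm d e : ℕ) else 0)
      ≤ ∑ d ∈ Icc 1 R, ∑ e ∈ Icc 1 R, ((if p ∣ d then (1 : ℝ) / (Nat.lcm d e : ℕ) else 0) +
        (if p ∣ e then (1 : ℝ) / (Nat.lcm e d : ℕ) else 0)) := by
        apply sum_le_sum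
        intro d _
        apply sum_le_sum
        intro e _
        rw [Nat.lcm_comm e d]
        have h0 : (0 : ℝ) ≤ 1 / (Nat.lcm d e : ℕ) := by positivity
        by_cases h1 : p ∣ Nat.lcm d e
        · rw [if_pos h1]
          rcases (Nat.Prime.dvd_lcm hp).1 h1 with h3 | h3
          · rw [if_pos h3]
            split_ifs <;> linarith
          · rw [if_pos h3]
            split_ifs <;> linarith
        · rw [if_neg h1]
          split_ifs <;> linarith
    _ = (∑ d ∈ Icc 1 R, ∑ e ∈ Icc 1 R, (if p ∣ d then (1 : ℝ) / (Nat.lcm d e : ℕ) else 0)) +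
        ∑ d ∈ Icc 1 R, ∑ e ∈ Icc 1 R, (if p ∣ e then (1 : ℝ) / (Nat.lcm e d : ℕ) else 0) := by
        rw [← sum_add_distrib]
        apply sum_congr rfl
        intro d _
        rw [sum_add_distrib]
    _ ≤ 2 * (1 + Real.log R) ^ 3 / p + 2 * (1 + Real.log R) ^ 3 / p := by
        apply add_le_add h
        rw [sum_comm]
        exact h
    _ = _ := by ring

end Pool.Agent.Y917.PSP
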