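import Pool.Agent.Y917.PSP.Maj1
import Pool.Agent.Y727.PSP.Stm

/-!
Project PSP (helper727), task MAJ, part 2: expansion of the squares of the sieve weights and the main term.
-/

set_option autoImplicit false

open Finset

namespace Pool.Agent.Y917.PSP

open Pool.Agent.Y727.PSP (qf)

open Classical in
/-- the pairs in the support of the weights -/
noncomputable def TT (R : ℕ) (lam : ℕ → ℝ) : Finset (ℕ × ℕ) :=
  (Icc 1 R ×ˢ Icc 1 R).filter (fun t => lam t.1 ≠ 0 ∧ lam t.2 ≠ 0)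

/-- the least common multiple -/
def Dl (t : ℕ × ℕ) : ℕ := Nat.lcm t.1 t.2

/-- the product of the weights -/
def wt (lam : ℕ → ℝ) (t : ℕ × ℕ) : ℝ := lam t.1 * lam t.2

theorem mem_TT {R : ℕ} {lam : ℕ → ℝ} {t : ℕ × ℕ} : t ∈ TT R lam ↔
    ((1 ≤ t.1 ∧ t.1 ≤ R) ∧ (1 ≤ t.2 ∧ t.2 ≤ R)) ∧ lam t.1 ≠ 0 ∧ lam t.2 ≠ 0 := by
  classical
  unfold TT
  rw [mem_filter, mem_product, mem_Icc, mem_Icc]

theorem Dl_pos {R : ℕ} {lam : ℕ → ℝ} {t : ℕ × ℕ} (ht : t ∈ TT R lam) : 1 ≤ Dl t := by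
  rw [mem_TT] at ht
  exact Nat.lcm_pos ht.1.1.1 ht.1.2.1

theorem qf_eq (R : ℕ) (lam : ℕ → ℝ) : qf R lam = ∑ t ∈ TT R lam, wt lam t / (Dl t : ℝ) := by
  classical
  unfold qf TT
  rw [sum_filter, sum_product]
  apply sum_congr rfl
  intro d _
  apply sum_congr rfl
  intro e _
  split_ifs with h
  · rfl
  · have : lam d * lam e = 0 := by
      by_contra h2
      exact h ⟨left_ne_zero_of_mul h2, right_ne_zero_of_mul h2⟩
    rw [this, zero_div]

theorem sq_eq (R : ℕ) (lam : ℕ → ℝ) (hlam : ∀ d, lam d ≠ 0 → 1 ≤ d ∧ d ≤ R) (n : ℕ) (hn : 0 < n) :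
    (∑ d ∈ n.divisors, lam d) ^ 2 = ∑ t ∈ TT R lam, (if Dl t ∣ n then wt lam t else 0) := by
  classical
  have h1 : ∑ d ∈ n.divisors, lam d = ∑ d ∈ Icc 1 R, (if d ∣ n then lam d else 0) := by
    rw [← sum_filter, ← sum_filter_ne_zero, ← sum_filter_ne_zero ((Icc 1 R).filter _)]
    apply sum_congr _ fun _ _ => rfl
    ext d
    simp only [mem_filter, Nat.mem_divisors, mem_Icc]
    constructor
    · rintro ⟨⟨h1, _⟩, h2⟩
      exact ⟨⟨hlam d h2, h1⟩, h2⟩
    · rintro ⟨⟨_, h1⟩, h2⟩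
      exact ⟨⟨h1, hn.ne'⟩, h2⟩
  rw [h1, pow_two, sum_mul_sum]
  unfold TT
  rw [sum_filter, sum_product]
  apply sum_congr rfl
  intro d _
  apply sum_congr rfl
  intro e _
  simp only [Dl, wt, Nat.lcm_dvd_iff]
  by_cases h : lam d ≠ 0 ∧ lam e ≠ 0
  · rw [if_pos h]
    split_ifs <;> simp_all
  · rw [if_neg h]
    have : lam d = 0 ∨ lam e = 0 := by
      by_contra h2
      push Not at h2
      exact h h2
    rcases this with h2 | h2 <;> rw [h2] <;> simp

/-- the expansion of a product of squares -/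
theorem expand (R : ℕ) (lam : ℕ → ℝ) (hlam : ∀ d, lam d ≠ 0 → 1 ≤ d ∧ d ≤ R) {m : ℕ} (n : Fin m → ℕ → ℕ)
    (hn : ∀ i K, 0 < n i K) (S : Finset ℕ) :
    ∑ K ∈ S, ∏ i, (∑ d ∈ (n i K).divisors, lam d) ^ 2 =
      ∑ x ∈ Fintype.piFinset (fun _ : Fin m => TT R lam), (∏ i, wt lam (x i)) *
        ((S.filter (fun K => ∀ i, Dl (x i) ∣ n i K)).card : ℝ) := by
  classical
  have h1 : ∀ K ∈ S, ∏ i, (∑ d ∈ (n i K).divisors, lam d) ^ 2 =
      ∑ x ∈ Fintype.piFinset (fun _ : Fin m => TT R lam),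
        (if ∀ i, Dl (x i) ∣ n i K then ∏ i, wt lam (x i) else 0) := by
    intro K _
    rw [prod_congr rfl fun i _ => sq_eq R lam hlam (n i K) (hn i K), prod_univ_sum]
    apply sum_congr rfl
    intro x _
    rw [prod_ite_zero]
    simp
  rw [sum_congr rfl h1, sum_comm]
  apply sum_congr rfl
  intro x _
  rw [← sum_filter, sum_const, nsmul_eq_mul, mul_comm]

/-- a product over the coordinates -/
theorem sum_pi {R m : ℕ} {lam : ℕ → ℝ} (h : Fin m → ℕ × ℕ → ℝ) :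
    ∑ x ∈ Fintype.piFinset (fun _ : Fin m => TT R lam), ∏ i, h i (x i) = ∏ i, ∑ t ∈ TT R lam, h i t :=
  (prod_univ_sum _ _).symm

theorem sum_TT_le (R : ℕ) (lam : ℕ → ℝ) (g : ℕ → ℝ) (hg : ∀ n, 0 ≤ g n) :
    ∑ t ∈ TT R lam, g (Dl t) ≤ ∑ d ∈ Icc 1 R, ∑ e ∈ Icc 1 R, g (Nat.lcm d e) := by
  classical
  unfold TT
  refine (sum_le_sum_of_subset_of_nonneg (filter_subset _ _) fun t _ _ => hg _).trans ?_
  rw [sum_product]
  rfl

theorem one_le_L (R : ℕ) : 1 ≤ (1 + Real.log R) ^ 3 := by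
  apply one_le_pow₀
  have := Real.log_natCast_nonneg R
  linarith

/-- the tuples with a common prime factor contribute little -/
theorem noncop (m R z : ℕ) (lam : ℕ → ℝ) (hz : 1 ≤ z)
    (hlam : ∀ d, lam d ≠ 0 → 1 ≤ d ∧ d ≤ R ∧ ∀ p : ℕ, p.Prime → p ∣ d → z < p) :
    ∑ x ∈ Fintype.piFinset (fun _ : Fin m => TT R lam),
      (if ∀ i j, i ≠ j → Nat.Coprime (Dl (x i)) (Dl (x j)) then 0 else ∏ i, (1 : ℝ) / (Dl (x i) : ℝ)) ≤
      16 * m ^ 2 * ((1 + Real.log R) ^ 3) ^ m / z := by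
  classical
  set L : ℝ := (1 + Real.log R) ^ 3 with hL
  have hL1 : 1 ≤ L := one_le_L R
  set T := Fintype.piFinset (fun _ : Fin m => TT R lam) with hT
  set Pz := (Ioc z R).filter Nat.Prime with hPz
  -- the functions on the coordinates
  set h : Fin m → Fin m → ℕ → Fin m → ℕ × ℕ → ℝ := fun i j p k t =>
    if k ∈ ({i, j} : Finset (Fin m)) → p ∣ Dl t then (1 : ℝ) / (Dl t : ℝ) else 0 with hh
  have hh0 : ∀ i j p k t, 0 ≤ h i j p k t := fun i j p k t => by
    simp only [hh]; split_ifs <;> positivity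
  have step1 : ∀ x ∈ T,
      (if ∀ i j, i ≠ j → Nat.Coprime (Dl (x i)) (Dl (x j)) then 0 else ∏ i, (1 : ℝ) / (Dl (x i) : ℝ)) ≤
      ∑ i : Fin m, ∑ j ∈ univ.filter (fun j => i ≠ j), ∑ p ∈ Pz, ∏ k, h i j p k (x k) := by
    intro x hx
    rw [hT, Fintype.mem_piFinset] at hx
    have hnn : ∀ i j, 0 ≤ ∑ p ∈ Pz, ∏ k, h i j p k (x k) := fun i j =>
      sum_nonneg fun p _ => prod_nonneg fun k _ => hh0 _ _ _ _ _
    split_ifs with hc
    · exact sum_nonneg fun i _ => sum_nonneg fun j _ => hnn i j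
    · push Not at hc
      obtain ⟨i, j, hij, hc⟩ := hc
      obtain ⟨p, hp, hpi, hpj⟩ := Nat.Prime.not_coprime_iff_dvd.1 hc
      have hpz : p ∈ Pz := by
        rw [hPz, mem_filter, mem_Ioc]
        refine ⟨?_, hp⟩
        have hxi := mem_TT.1 (hx i)
        rcases (Nat.Prime.dvd_lcm hp).1 hpi with h1 | h1
        · have := hlam _ hxi.2.1
          exact ⟨this.2.2 p hp h1, (Nat.le_of_dvd this.1 h1).trans this.2.1⟩
        · have := hlam _ hxi.2.2
          exact ⟨this.2.2 p hp h1, (Nat.le_of_dvd this.1 h1).trans this.2.1⟩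
      have e1 : ∏ i, (1 : ℝ) / (Dl (x i) : ℝ) = ∏ k, h i j p k (x k) := by
        apply prod_congr rfl
        intro k _
        simp only [hh]
        rw [if_pos]
        intro hk
        rw [mem_insert, mem_singleton] at hk
        rcases hk with rfl | rfl
        · exact hpi
        · exact hpj
      rw [e1]
      refine (single_le_sum (f := fun p => ∏ k, h i j p k (x k))
        (fun p _ => prod_nonneg fun k _ => hh0 _ _ _ _ _) hpz).trans ?_
      refine (single_le_sum (f := fun j => ∑ p ∈ Pz, ∏ k, h i j p k (x k))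
        (fun j _ => hnn i j) (mem_filter.2 ⟨mem_univ j, hij⟩)).trans ?_
      exact single_le_sum (f := fun i => ∑ j ∈ univ.filter (fun j => i ≠ j), ∑ p ∈ Pz, ∏ k, h i j p k (x k))
        (fun i _ => sum_nonneg fun j _ => hnn i j) (mem_univ i)
  have step2 : ∀ i j : Fin m, i ≠ j → ∀ p ∈ Pz, ∑ x ∈ T, ∏ k, h i j p k (x k) ≤
      L ^ m * (16 * ((p : ℝ) ^ 2)⁻¹) := by
    intro i j hij p hp
    rw [hPz, mem_filter, mem_Ioc] at hp
    have hp0 : (0 : ℝ) < p := by exact_mod_cast hp.2.pos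
    rw [hT, sum_pi]
    have h1 : ∀ k ∈ (univ : Finset (Fin m)), ∑ t ∈ TT R lam, h i j p k t ≤
        L * (if k ∈ ({i, j} : Finset (Fin m)) then 4 / (p : ℝ) else 1) := by
      intro k _
      by_cases hk : k ∈ ({i, j} : Finset (Fin m))
      · rw [if_pos hk]
        have e1 : ∀ t ∈ TT R lam, h i j p k t =
            (fun n : ℕ => if p ∣ n then (1 : ℝ) / (n : ℝ) else 0) (Dl t) := by
          intro t _
          simp only [hh]
          by_cases hpt : p ∣ Dl t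
          · rw [if_pos fun _ => hpt, if_pos hpt]
          · rw [if_neg fun hh => hpt (hh hk), if_neg hpt]
        rw [sum_congr rfl e1]
        refine (sum_TT_le R lam (fun n : ℕ => if p ∣ n then (1 : ℝ) / (n : ℝ) else 0) fun n => by
          split_ifs <;> positivity).trans ?_
        refine (lcm_sum_prime R p hp.2).trans_eq ?_
        rw [hL]
        ring
      · rw [if_neg hk, mul_one]
        have e1 : ∀ t ∈ TT R lam, h i j p k t = (fun n : ℕ => (1 : ℝ) / (n : ℝ)) (Dl t) := by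
          intro t _
          simp only [hh]
          rw [if_pos fun hh => absurd hh hk]
        rw [sum_congr rfl e1]
        exact (sum_TT_le R lam (fun n : ℕ => (1 : ℝ) / (n : ℝ)) fun n => by positivity).trans (lcm_sum_one R)
    refine (prod_le_prod (fun k _ => sum_nonneg fun t _ => hh0 _ _ _ _ _) h1).trans_eq ?_
    rw [prod_mul_distrib, prod_const, card_univ, Fintype.card_fin, prod_ite_mem, univ_inter, prod_const,
      card_pair hij]
    field_simp
    norm_num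
  have step3 : ∑ p ∈ Pz, ((p : ℝ) ^ 2)⁻¹ ≤ 1 / z := by
    have hz0 : (0 : ℝ) < z := by exact_mod_cast hz
    refine (sum_le_sum_of_subset_of_nonneg (filter_subset _ _) fun p _ _ => by positivity).trans ?_
    rcases le_or_gt z R with h1 | h1
    · refine (sum_Ioc_inv_sq_le_sub (by omega) h1).trans ?_
      rw [one_div]
      have : (0 : ℝ) ≤ (R : ℝ)⁻¹ := by positivity
      linarith
    · rw [Ioc_eq_empty_of_le h1.le, sum_empty]
      positivity
  calc _ ≤ ∑ x ∈ T, ∑ i : Fin m, ∑ j ∈ univ.filter (fun j => i ≠ j), ∑ p ∈ Pz, ∏ k, h i j p k (x k) :=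
        sum_le_sum step1
    _ = ∑ i : Fin m, ∑ j ∈ univ.filter (fun j => i ≠ j), ∑ p ∈ Pz, ∑ x ∈ T, ∏ k, h i j p k (x k) := by
        rw [sum_comm]
        apply sum_congr rfl
        intro i _
        rw [sum_comm]
        apply sum_congr rfl
        intro j _
        rw [sum_comm]
    _ ≤ ∑ i : Fin m, ∑ j ∈ univ.filter (fun j : Fin m => i ≠ j), ∑ p ∈ Pz, L ^ m * (16 * ((p : ℝ) ^ 2)⁻¹) := by
        apply sum_le_sum
        intro i _
        apply sum_le_sum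
        intro j hj
        apply sum_le_sum
        intro p hp
        exact step2 i j (mem_filter.1 hj).2 p hp
    _ ≤ ∑ i : Fin m, ∑ j : Fin m, L ^ m * (16 * (1 / z)) := by
        apply sum_le_sum
        intro i _
        refine (sum_le_sum (g := fun _ => L ^ m * (16 * (1 / (z : ℝ)))) fun j _ => ?_).trans ?_
        · rw [← mul_sum, ← mul_sum]
          gcongr
        · apply sum_le_sum_of_subset_of_nonneg (filter_subset _ _)
          intro _ _ _
          positivity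
    _ = _ := by
        rw [sum_const, sum_const, card_univ, Fintype.card_fin]
        simp only [nsmul_eq_mul]
        ring

/-- the main term of the correlation -/
theorem corr (m R z : ℕ) (lam : ℕ → ℝ) (hz : 1 ≤ z)
    (hlam : ∀ d, lam d ≠ 0 → 1 ≤ d ∧ d ≤ R ∧ ∀ p : ℕ, p.Prime → p ∣ d → z < p) (hl1 : ∀ d, |lam d| ≤ 1)
    (cnt : (Fin m → ℕ × ℕ) → ℝ) (Y ε E : ℝ) (hY : 0 ≤ Y) (hε : 0 ≤ ε) (hE : 0 ≤ E)
    (hcop : ∀ x, (∀ i, x i ∈ TT R lam) → (∀ i j, i ≠ j → Nat.Coprime (Dl (x i)) (Dl (x j))) →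
      |cnt x - Y * ∏ i, (1 : ℝ) / (Dl (x i) : ℝ)| ≤ ε * (Y * ∏ i, (1 : ℝ) / (Dl (x i) : ℝ)) + E)
    (hncop : ∀ x, (∀ i, x i ∈ TT R lam) → ¬ (∀ i j, i ≠ j → Nat.Coprime (Dl (x i)) (Dl (x j))) → cnt x = 0) :
    |∑ x ∈ Fintype.piFinset (fun _ : Fin m => TT R lam), (∏ i, wt lam (x i)) * cnt x - Y * qf R lam ^ m| ≤
      Y * (16 * m ^ 2 * ((1 + Real.log R) ^ 3) ^ m / z + ε * ((1 + Real.log R) ^ 3) ^ m) +
        (R : ℝ) ^ (2 * m) * E := by
  classical
  have e1 : qf R lam ^ m = ∑ x ∈ Fintype.piFinset (fun _ : Fin m => TT R lam),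
      (∏ i, wt lam (x i)) * ∏ i, (1 : ℝ) / (Dl (x i) : ℝ) := by
    have h1 : ∀ x ∈ Fintype.piFinset (fun _ : Fin m => TT R lam),
        (∏ i, wt lam (x i)) * ∏ i, (1 : ℝ) / (Dl (x i) : ℝ) = ∏ i, (wt lam (x i) / (Dl (x i) : ℝ)) := by
      intro x _
      rw [← prod_mul_distrib]
      exact prod_congr rfl fun i _ => mul_one_div _ _
    rw [sum_congr rfl h1, sum_pi (fun _ t => wt lam t / (Dl t : ℝ)), prod_const, card_univ, Fintype.card_fin,
      qf_eq]
  rw [e1, mul_sum, ← sum_sub_distrib]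
  refine (abs_sum_le_sum_abs _ _).trans ?_
  have h1 : ∀ x ∈ Fintype.piFinset (fun _ : Fin m => TT R lam),
      |(∏ i, wt lam (x i)) * cnt x - Y * ((∏ i, wt lam (x i)) * ∏ i, (1 : ℝ) / (Dl (x i) : ℝ))| ≤
      Y * (if ∀ i j, i ≠ j → Nat.Coprime (Dl (x i)) (Dl (x j)) then 0 else ∏ i, (1 : ℝ) / (Dl (x i) : ℝ)) +
      (ε * (Y * ∏ i, (1 : ℝ) / (Dl (x i) : ℝ)) + E) := by
    intro x hx
    rw [Fintype.mem_piFinset] at hx
    have hp : 0 ≤ ∏ i, (1 : ℝ) / (Dl (x i) : ℝ) := prod_nonneg fun i _ => by positivity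
    have hw : |∏ i, wt lam (x i)| ≤ 1 := by
      rw [abs_prod]
      apply prod_le_one
      · intro i _
        exact abs_nonneg _
      · intro i _
        unfold wt
        rw [abs_mul]
        exact mul_le_one₀ (hl1 _) (abs_nonneg _) (hl1 _)
    have e2 : (∏ i, wt lam (x i)) * cnt x - Y * ((∏ i, wt lam (x i)) * ∏ i, (1 : ℝ) / (Dl (x i) : ℝ)) =
        (∏ i, wt lam (x i)) * (cnt x - Y * ∏ i, (1 : ℝ) / (Dl (x i) : ℝ)) := by ring
    rw [e2, abs_mul]
    have h3 : |∏ i, wt lam (x i)| * |cnt x - Y * ∏ i, (1 : ℝ) / (Dl (x i) : ℝ)| ≤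
        |cnt x - Y * ∏ i, (1 : ℝ) / (Dl (x i) : ℝ)| := mul_le_of_le_one_left (abs_nonneg _) hw
    refine h3.trans ?_
    have h4 : 0 ≤ ε * (Y * ∏ i, (1 : ℝ) / (Dl (x i) : ℝ)) := by positivity
    by_cases hc : ∀ i j, i ≠ j → Nat.Coprime (Dl (x i)) (Dl (x j))
    · rw [if_pos hc, mul_zero, zero_add]
      exact hcop x hx hc
    · rw [if_neg hc, hncop x hx hc, zero_sub, abs_neg, abs_of_nonneg (by positivity)]
      linarith
  refine (sum_le_sum h1).trans ?_
  rw [sum_add_distrib, sum_add_distrib, ← mul_sum, ← mul_sum, ← mul_sum, sum_const, nsmul_eq_mul]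
  have h2 := noncop m R z lam hz hlam
  have h3 : ∑ x ∈ Fintype.piFinset (fun _ : Fin m => TT R lam), ∏ i, (1 : ℝ) / (Dl (x i) : ℝ) ≤
      ((1 + Real.log R) ^ 3) ^ m := by
    rw [sum_pi (fun _ t => (1 : ℝ) / (Dl t : ℝ)), prod_const, card_univ, Fintype.card_fin]
    apply pow_le_pow_left₀ (sum_nonneg fun t _ => by positivity)
    exact (sum_TT_le R lam (fun n : ℕ => (1 : ℝ) / (n : ℝ)) fun n => by positivity).trans (lcm_sum_one R)
  have h4 : ((Fintype.piFinset (fun _ : Fin m => TT R lam)).card : ℝ) ≤ (R : ℝ) ^ (2 * m) := by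
    rw [Fintype.card_piFinset, prod_const, card_univ, Fintype.card_fin, pow_mul]
    push_cast
    apply pow_le_pow_left₀ (Nat.cast_nonneg _)
    have h5 : (TT R lam).card ≤ R ^ 2 := by
      unfold TT
      refine (card_filter_le _ _).trans ?_
      rw [card_product, Nat.card_Icc, pow_two]
      simp
    exact_mod_cast h5
  have h5 : Y * ∑ x ∈ Fintype.piFinset (fun _ : Fin m => TT R lam),
      (if ∀ i j, i ≠ j → Nat.Coprime (Dl (x i)) (Dl (x j)) then 0 else ∏ i, (1 : ℝ) / (Dl (x i) : ℝ)) ≤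
      Y * (16 * m ^ 2 * ((1 + Real.log R) ^ 3) ^ m / z) := mul_le_mul_of_nonneg_left h2 hY
  have h6 : ε * (Y * ∑ x ∈ Fintype.piFinset (fun _ : Fin m => TT R lam), ∏ i, (1 : ℝ) / (Dl (x i) : ℝ)) ≤
      ε * (Y * ((1 + Real.log R) ^ 3) ^ m) := by gcongr
  have h7 := mul_le_mul_of_nonneg_right h4 hE
  linarith

end Pool.Agent.Y917.PSP
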